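import Pool.Agent.H9.Top

namespace Pool.Agent.Results.MP_07f7bf_an.Counter

variable (X : Type) [NormedAddCommGroup X] [NormedSpace ℝ X]

/-- numerical radius of a map `P : X → X` -/
noncomputable def numRad (P : X → X) : ℝ :=
  sSup {r | ∃ (x : X) (f : X →L[ℝ] ℝ), ‖x‖ = 1 ∧ ‖f‖ = 1 ∧ f x = 1 ∧ r = |f (P x)|}

/-- supremum of `‖P x‖` over the closed unit ball -/
noncomputable def ballNorm (P : X → X) : ℝ := sSup {r | ∃ x : X, ‖x‖ ≤ 1 ∧ r = ‖P x‖}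

/-- numerical index -/
noncomputable def index1 : ℝ := sInf {r | ∃ T : X →L[ℝ] X, ‖T‖ = 1 ∧ r = numRad X T}

/-- the numerical radii of the continuous 2-homogeneous polynomials of norm one -/
def radii2 : Set ℝ := {r | ∃ A : X →L[ℝ] X →L[ℝ] X,
  ballNorm X (fun x => A x x) = 1 ∧ r = numRad X fun x => A x x}

/-- polynomial numerical index of order two -/
noncomputable def index2 : ℝ := sInf (radii2 X)

theorem result : ∃ (X : Type) (_ : NormedAddCommGroup X) (_ : NormedSpace ℝ X),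
    CompleteSpace X ∧ FiniteDimensional ℝ X ∧ Nontrivial X ∧
    0 ∈ radii2 X ∧ index2 X = 0 ∧ 0 < index1 X := by
  open H9.Top in
  have h0 : Nontrivial S := ⟨⟨_, 0, norm_ne_zero_iff.1 (A_one.2.trans_ne one_ne_zero)⟩⟩
  have h1 : 0 ∈ radii2 H9.Top.S := ⟨H9.Top.A, IsGreatest.csSup_eq ⟨⟨_, H9.Top.A_one.1,
    H9.Top.A_one.2.symm⟩, fun _ ⟨p, e1, e2⟩ => e2 ▸ H9.Top.A_le p e1⟩,
    le_antisymm (Real.sSup_nonneg fun _ ⟨_, _, _, _, _, e⟩ => e ▸ abs_nonneg _)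
      (Real.sSup_nonpos fun _ ⟨p, f, e1, e2, e3, e⟩ => by
        rw [e, H9.Top.A_zero p f e1 e2 e3, abs_zero])⟩
  refine ⟨H9.Top.S, _, _, FiniteDimensional.complete ℝ _, inferInstance, h0, h1,
    IsLeast.csInf_eq ⟨h1, fun _ ⟨_, _, e⟩ => e ▸
      Real.sSup_nonneg fun _ ⟨_, _, _, _, _, e⟩ => e ▸ abs_nonneg _⟩,
    lt_of_lt_of_le (show (0 : ℝ) < 1 / 30 by norm_num) (le_csInf
      ⟨_, _, ContinuousLinearMap.norm_id, rfl⟩ fun _ ⟨T, e1, e2⟩ => ?_)⟩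
  have := H9.Top.low T (V := numRad _ T) fun p f a1 a2 a3 => le_csSup ⟨1,
    fun _ ⟨q, g, b1, b2, _, e⟩ => e.trans_le ((g.unit_le_opNorm _
      ((T.unit_le_opNorm q b1.le).trans e1.le)).trans b2.le)⟩ ⟨p, f, a1, a2, a3, rfl⟩
  linarith

end Pool.Agent.Results.MP_07f7bf_an.Counter
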